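import Pool.Agent.TH254.DK.Unique

/-!
Positive hermitian forms over group rings: the finest induced decomposition, the theorem of
Krull and Schmidt, and the theorem of Witt.

Let `R` be a ring with involution and `φ : R → ℤ` additive (for instance `ℤ` with the identity,
the integers of a totally real or CM field with the trace, an order in a definite quaternion
algebra with the reduced trace, or the integral group ring of any group with the coefficient at
the unit). Let `G` be any group and `(M, lam)` a hermitian form over `R[G]` which is positive:
`φ` of the coefficient of `lam x x` at `1` is positive for `x ≠ 0`. It may be singular, and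
`M` is any module. The definitions are in `Pool.Agent.TH254.DK.Defs`.

A frame is an orthogonal decomposition of the group `M` which is permuted by `G`; up to
isometry it is a presentation of `(M, lam)` as an orthogonal sum of forms induced from the
stabilisers.

* There is a finest frame. It is the only one with indecomposable members, and all isometries
  preserve it.
* If `(M, lam)` is induced from a family `F` of subgroups and also from `F'`, it is induced from
  the subgroups contained in a member of `F` and in a member of `F'`.
* Orthogonal summands of forms induced from `F` are induced from `F`.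
* `M` is the orthogonal sum of submodules `C o` such that all decompositions of `M` into
  orthogonal submodules are coarser; they are finitely many if `M` is finitely generated.
* If `M` is finitely generated, isometries between orthogonal summands of `M` extend to `M`;
  finitely generated positive forms can be cancelled from orthogonal sums.

Idea of the proof: a nonzero vector which is not the sum of two orthogonal nonzero vectors lies
in a single member of each orthogonal decomposition, and such vectors generate because the norm
is a positive integer; take the classes generated by non-orthogonality (Eichler and Kneser, for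
lattices of finite rank).
-/

set_option autoImplicit false

namespace Pool.Agent.Results.MP_b6f35e_al.DefiniteForms

open Pool.Agent.TH254.DK

universe u v w x

theorem result (R : Type u) [Ring R] [StarRing R] (φ : R →+ ℤ) (G : Type w) [Group G]
    (M : Type v) [AddCommGroup M] [Module (MonoidAlgebra R G) M]
    (lam : M → M → MonoidAlgebra R G) (h : IsHermitian lam) (hpos : PositiveFor φ lam) :
    -- values of the form on frames
    FrameValues.{u, v, w, x} lam ∧
    -- the finest frame
    HasFinestFrame.{u, v, w, x} lam ∧
    -- isometries preserve the frames with indecomposable members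
    FramesInvariant.{u, v, w, x} lam ∧
    -- intersections of families of subgroups
    (∀ F F' : Set (Subgroup G), InducedOver F lam ⊤ → InducedOver F' lam ⊤ →
      InducedOver {H | (∃ K ∈ F, H ≤ K) ∧ ∃ K ∈ F', H ≤ K} lam ⊤) ∧
    -- orthogonal summands
    (∀ F : Set (Subgroup G), InducedOver F lam ⊤ → ∀ P Q : Submodule (MonoidAlgebra R G) M,
      Splits lam P Q → InducedOver F lam P) ∧
    -- the theorem of Krull and Schmidt
    KrullSchmidt.{u, v, w, x} lam ∧
    -- the theorem of Witt
    (Module.Finite (MonoidAlgebra R G) M → WittExtension lam ∧ Cancellation φ lam) := by
  refine ⟨?_, ?_, ?_, ?_, ?_, ?_, ?_⟩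
  · intro I _ N hN
    exact ⟨fun r i a ha => frame_stable φ h hpos hN r i ha,
      fun i j g hg a ha b hb => frame_values h hN i j g hg ha hb⟩
  · refine ⟨(core1 φ h hpos).I, actI φ h hpos, (core1 φ h hpos).P, isFrame_P φ h hpos, ?_, ?_, ?_⟩
    · intro i
      exact ⟨(core1 φ h hpos).P_ne_bot i, fun U V ho hs => (core1 φ h hpos).P_indec i U V ho hs⟩
    · intro J _ N' hN'
      exact finest_equivariant φ h hpos hN'
    · intro _
      exact finite_orbits φ h hpos
  · intro M' _ _ lam' β hβ I J _ _ N N' hN hI hN' hI'
    exact isometry_frames φ h hpos β hβ hN hI hN' hI'
  · exact fun F F' h1 h2 => induced_inter φ h hpos F F' h1 h2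
  · exact fun F h1 P Q hPQ => induced_summand φ h hpos F h1 P Q hPQ
  · refine ⟨(coreG φ h hpos).I, (coreG φ h hpos).C (coreG_smul φ h hpos), ⟨?_, ?_⟩, ?_, ?_, ?_⟩
    · intro i j hij a ha b hb
      exact (coreG φ h hpos).C_orth (coreG_smul φ h hpos) hij ha hb
    · exact (coreG φ h hpos).C_sup (coreG_smul φ h hpos)
    · exact (coreG φ h hpos).C_ne_bot (coreG_smul φ h hpos)
    · intro J D hD
      exact (coreG φ h hpos).C_finest (coreG_smul φ h hpos) D hD.1 hD.2
    · intro _
      exact (coreG φ h hpos).finite_I (A := MonoidAlgebra R G) (coreG_smul φ h hpos)
  · intro _
    refine ⟨?_, ?_⟩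
    · intro P Q P' Q' h1 h2 α hα
      exact witt_group φ h hpos P Q P' Q' h1 h2 α hα
    · rintro M' Q _ _ _ _ lam' κ _ h' hκ pκ ⟨E, hE⟩
      exact cancel φ h h' hκ hpos pκ E hE

end Pool.Agent.Results.MP_b6f35e_al.DefiniteForms
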