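import Pool.Agent.TH6.PF.OddD

set_option autoImplicit false

/-! Automorphisms of hyperbolic quadratic forms over the group ring of any ring with involution and
any group whose support pattern has operator norm less than `3 / √2` are products of such
automorphisms over the group rings of virtually cyclic subgroups. -/

namespace Pool.Agent.Results.MP_b6f35e_al.ThinAutomorphisms

open TH57.Thr TH6.PF Matrix

theorem result (R : Type) [Ring R] [StarRing R] (G : Type) [Group G] (ε : ℤ)
    (hε : ε = 1 ∨ ε = -1) (c : ℝ) (hc0 : 0 < c) (hc : c ^ 2 < 9 / 2) (n : ℕ)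
    (α : (Matrix (Fin n ⊕ Fin n) (Fin n ⊕ Fin n) (MonoidAlgebra R G))ˣ)
    (hα : QIso ε α.val) (hA : ThinLE α.val c) :
    α ∈ VCIso R G (Fin n) ε :=
  thin_iso ε hε α hα c hc0 hc hA

end Pool.Agent.Results.MP_b6f35e_al.ThinAutomorphisms
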