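import Pool.Agent.TH6.PF.LBelow

set_option autoImplicit false

/-! For every group `G` and every ring with involution `R`, a quadratic form over `RG` whose
symmetrised support pattern has operator norm less than `3 / √2` is, up to a diagonal change of
basis by group elements, an orthogonal sum of forms induced from virtually cyclic subgroups. -/

namespace Pool.Agent.Results.MP_b6f35e_al.ThinForms

open TH57.Thr TH6.LF TH6.PF Matrix

theorem result (R : Type) [Ring R] [StarRing R] (G : Type) [Group G] (w : G →* ℤˣ) (c : ℝ)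
    (hc0 : 0 < c) (hc : c ^ 2 < 9 / 2) (n : ℕ)
    (ψ : Matrix (Fin n) (Fin n) (MonoidAlgebra R G)) (hψ : NormLE (symPat ψ) c) :
    ∃ (ρ : Fin n → Fin n) (u : Fin n → G) (C : Fin n → Subgroup G)
      (θ : ∀ a, Matrix {i // ρ i = a} {i // ρ i = a} (MonoidAlgebra R (C a))),
      (∀ a, IsVC (C a)) ∧
      (dmU R u).val * ψ * sadj w (dmU R u).val = blockSum ρ ρ C θ ∧
      ∀ ε : ℤ, IsUnit (ψ + ε • sadj w ψ) →
        ∀ a, IsUnit (θ a + ε • sadj (w.comp (C a).subtype) (θ a)) :=
  thin_forms w c hc0 hc ψ hψ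

end Pool.Agent.Results.MP_b6f35e_al.ThinForms
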